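import Pool.Agent.helper72.ODK.Spec

set_option autoImplicit false

namespace Pool.Agent.helper72.UP

open Finset

theorem ASW (h : FIW_stmt) : ASW_stmt := by
  obtain ⟨n0, hn0⟩ : ∃ n0 : ℕ, ∀ n : ℕ, n0 ≤ n → (1000000 : ℝ) ≤ Real.log (n : ℝ) := by
    have h1 := Real.tendsto_log_atTop.comp (tendsto_natCast_atTop_atTop (R := ℝ))
    have h2 := h1.eventually_ge_atTop (1000000 : ℝ)
    rw [Filter.eventually_atTop] at h2
    obtain ⟨n0, h3⟩ := h2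
    exact ⟨n0, fun n hn => h3 n hn⟩
  refine ⟨max n0 20, ?_⟩
  intro n hn K hK1 hK2
  have hn20 : 20 ≤ n := le_trans (le_max_right _ _) hn
  have hl := hn0 n (le_trans (le_max_left _ _) hn)
  have hnpos : (0 : ℝ) < (n : ℝ) := by
    have : (20 : ℝ) ≤ (n : ℝ) := by exact_mod_cast hn20
    linarith
  set ℓ : ℝ := Real.log (n : ℝ) with hℓ
  set r : ℝ := Real.exp (ℓ / 4) with hr
  have hr4 : r ^ 4 = (n : ℝ) := by
    rw [hr, ← Real.exp_nat_mul]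
    have e : ((4 : ℕ) : ℝ) * (ℓ / 4) = ℓ := by push_cast; ring
    rw [e, hℓ, Real.exp_log hnpos]
  have hr0 : 0 < r := Real.exp_pos _
  have hr1 : ℓ / 4 + 1 ≤ r := Real.add_one_le_exp _
  have hrq : (ℓ / 4) ^ 2 / 2 ≤ r := by
    have := Real.quadratic_le_exp_of_nonneg (x := ℓ / 4) (by linarith)
    linarith
  set q : ℝ := Real.sqrt ℓ with hq
  have hq2 : q ^ 2 = ℓ := Real.sq_sqrt (by linarith)
  have hq0 : 0 ≤ q := Real.sqrt_nonneg _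
  have hq1 : 1000 ≤ q := by
    rw [hq]
    exact Real.le_sqrt_of_sq_le (by linarith)
  have hs : Real.sqrt (n : ℝ) = r ^ 2 := by
    rw [← hr4]
    have e : r ^ 4 = (r ^ 2) ^ 2 := by ring
    rw [e, Real.sqrt_sq (by positivity)]
  have hL : Real.sqrt ((n : ℝ) * Real.log n) = r ^ 2 * q := by
    rw [Real.sqrt_mul hnpos.le, hs]
  rw [hL] at hK2
  have hqr : q ≤ r := by nlinarith
  have hr250 : 250000 ≤ r := by linarith
  have hLn : 250000 * (r ^ 2 * q) ≤ (n : ℝ) := by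
    rw [← hr4]
    have h1 : r ^ 2 * q ≤ r ^ 2 * r := mul_le_mul_of_nonneg_left hqr (by positivity)
    have h2 : 250000 * (r ^ 2 * r) ≤ r * (r ^ 2 * r) := mul_le_mul_of_nonneg_right hr250 (by positivity)
    nlinarith
  have hsL : 1000 * r ^ 2 ≤ r ^ 2 * q := by nlinarith [sq_nonneg r]
  have hr2 : 250000 ≤ r ^ 2 := by nlinarith
  set L : ℝ := r ^ 2 * q with hLdef
  have hK3 : (K : ℝ) ≤ (n : ℝ) / 4 + L / 16 - 1 / 2 := by
    push_cast at hK2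
    linarith
  -- the numbers m, m'
  have hm : (n : ℝ) ≤ 4 * ((n / 2 / 2 : ℕ) : ℝ) + 3 := by
    have : n ≤ 4 * (n / 2 / 2) + 3 := by omega
    exact_mod_cast this
  have hm' : (n : ℝ) ≤ 4 * (((n - 1) / 2 / 2 : ℕ) : ℝ) + 4 := by
    have : n ≤ 4 * ((n - 1) / 2 / 2) + 4 := by omega
    exact_mod_cast this
  have hsq : ((Nat.sqrt (n / 2) : ℕ) : ℝ) ≤ r ^ 2 := by
    rw [← hs]
    refine Real.le_sqrt_of_sq_le ?_
    have h1 : Nat.sqrt (n / 2) * Nat.sqrt (n / 2) ≤ n := (Nat.sqrt_le (n / 2)).trans (Nat.div_le_self _ _)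
    have h2 : ((Nat.sqrt (n / 2) : ℕ) : ℝ) * ((Nat.sqrt (n / 2) : ℕ) : ℝ) ≤ (n : ℝ) := by exact_mod_cast h1
    nlinarith
  have hL0 : 0 ≤ L := by positivity
  have hy : ((K + 1 - n / 2 / 2 : ℕ) : ℝ) ≤ L / 15 := by
    rcases le_total (n / 2 / 2) (K + 1) with h1 | h1
    · rw [Nat.cast_sub h1]
      push_cast
      linarith
    · rw [Nat.sub_eq_zero_of_le h1]
      push_cast
      positivity
  have hy' : ((K - 1 + 2 * (Nat.sqrt (n / 2) + 1) - (n - 1) / 2 / 2 : ℕ) : ℝ) ≤ L / 15 := by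
    rcases le_total ((n - 1) / 2 / 2) (K - 1 + 2 * (Nat.sqrt (n / 2) + 1)) with h1 | h1
    · rw [Nat.cast_sub h1]
      have h2 : ((K - 1 : ℕ) : ℝ) ≤ (K : ℝ) := by exact_mod_cast Nat.sub_le K 1
      push_cast
      linarith
    · rw [Nat.sub_eq_zero_of_le h1]
      push_cast
      positivity
  refine h n K hn20 hK1 ?_ ?_ ?_ ?_
  · have h1 : (K : ℝ) ≤ ((n / 2 : ℕ) : ℝ) := by
      have h2 : (n : ℝ) ≤ 2 * ((n / 2 : ℕ) : ℝ) + 1 := by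
        have : n ≤ 2 * (n / 2) + 1 := by omega
        exact_mod_cast this
      linarith
    exact_mod_cast h1
  · have h1 : 4 * ((K + 1 - n / 2 / 2 : ℕ) : ℝ) ≤ ((n / 2 / 2 : ℕ) : ℝ) + 1 := by linarith
    exact_mod_cast h1
  · have h1 : 4 * ((K - 1 + 2 * (Nat.sqrt (n / 2) + 1) - (n - 1) / 2 / 2 : ℕ) : ℝ) ≤ (((n - 1) / 2 / 2 : ℕ) : ℝ) + 1 := by linarith
    exact_mod_cast h1
  · have hLL : L ^ 2 = (n : ℝ) * ℓ := by
      rw [hLdef, mul_pow, hq2, ← hr4]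
      ring
    have key : ∀ (Y M : ℝ), 0 ≤ Y → Y ≤ L / 15 → (n : ℝ) ≤ 4 * (M + 1) → 2 * Y ^ 2 / (M + 1) ≤ ℓ / 8 := by
      intro Y M hY0 hY hM
      have hM0 : 0 < M + 1 := by linarith
      rw [div_le_iff₀ hM0]
      have h1 : Y ^ 2 ≤ (L / 15) ^ 2 := pow_le_pow_left₀ hY0 hY 2
      have h2 : (n : ℝ) * ℓ ≤ 4 * (M + 1) * ℓ := mul_le_mul_of_nonneg_right hM (by linarith)
      have h3 : (L / 15) ^ 2 = (n : ℝ) * ℓ / 225 := by rw [div_pow, hLL]; norm_num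
      nlinarith
    have h1 := key _ _ (Nat.cast_nonneg _) hy (by linarith : (n : ℝ) ≤ 4 * (((n / 2 / 2 : ℕ) : ℝ) + 1))
    have h2 := key _ _ (Nat.cast_nonneg _) hy' (by linarith : (n : ℝ) ≤ 4 * ((((n - 1) / 2 / 2 : ℕ) : ℝ) + 1))
    have hE : r⁻¹ ≤ Real.exp (-(2 * ((K + 1 - n / 2 / 2 : ℕ) : ℝ) ^ 2 / ((n / 2 / 2 : ℕ) + 1)) - 2 * ((K - 1 + 2 * (Nat.sqrt (n / 2) + 1) - (n - 1) / 2 / 2 : ℕ) : ℝ) ^ 2 / (((n - 1) / 2 / 2 : ℕ) + 1)) := by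
      rw [hr, ← Real.exp_neg]
      refine Real.exp_le_exp.2 ?_
      linarith
    have ha : (n : ℝ) ≤ 2 * (((n - 1) / 2 : ℕ) : ℝ) + 2 := by
      have : n ≤ 2 * ((n - 1) / 2) + 2 := by omega
      exact_mod_cast this
    have ha2 : (((n - 1) / 2 : ℕ) : ℝ) ≤ (n : ℝ) := by
      have : (n - 1) / 2 ≤ n := by omega
      exact_mod_cast this
    have hsa : Real.sqrt (((n - 1) / 2 : ℕ) : ℝ) ≤ r ^ 2 := by
      rw [← hs]
      exact Real.sqrt_le_sqrt ha2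
    have h4 : (n : ℝ) / 2 * r⁻¹ ≤ ((((n - 1) / 2 : ℕ) : ℝ) + 2) * Real.exp (-(2 * ((K + 1 - n / 2 / 2 : ℕ) : ℝ) ^ 2 / ((n / 2 / 2 : ℕ) + 1)) - 2 * ((K - 1 + 2 * (Nat.sqrt (n / 2) + 1) - (n - 1) / 2 / 2 : ℕ) : ℝ) ^ 2 / (((n - 1) / 2 / 2 : ℕ) + 1)) := by
      refine mul_le_mul (by linarith) hE (by positivity) (by positivity)
    have h5 : (n : ℝ) / 2 * r⁻¹ = r ^ 3 / 2 := by
      rw [← hr4]
      field_simp
    have h6 : 12 * r ^ 2 < r ^ 3 / 2 := by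
      have : 250000 * r ^ 2 ≤ r * r ^ 2 := mul_le_mul_of_nonneg_right hr250 (by positivity)
      nlinarith
    linarith

end Pool.Agent.helper72.UP
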